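import Pool.Agent.H26.ES.Targets
import Pool.Agent.H60.LVP.PL

/-!
# Stars with positions: row PLP, the pair lemma (after Pool.Agent.H60.LVP.PL)
-/

set_option autoImplicit false

open Finset MeasureTheory

namespace Pool.Agent.H59.ES

open Pool.Agent.H24.CL Pool.Agent.H24.LV Pool.Agent.H26.ES Pool.Agent.H60.LVP

theorem meas_acP {k : ℕ} (hq : ∀ D y : ℕ, 1 ≤ D → Measurable (phi D y : X k → X k))
    {p q : ℕ} (hp : 1 ≤ p) (hq1 : 1 ≤ q) {V : Set (X k)} {G : ℕ → Set (X k)}
    (hV : MeasurableSet V) (hG : ∀ y, MeasurableSet (G y)) (y : ℕ) :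
    Measurable fun b : X k => acP p q V G b y := by
  classical
  unfold acP
  apply Measurable.div_const
  have h1 : (fun b : X k => (((range q).filter fun z => phi q z (phi p y b) ∈ V ∧
      phi q ((y + p * z) % q) b ∈ G ((y + p * z) / q)).card : ℝ)) = fun b => ∑ z ∈ range q,
      ({b | phi q z (phi p y b) ∈ V ∧ phi q ((y + p * z) % q) b ∈ G ((y + p * z) / q)} :
        Set (X k)).indicator (fun _ => (1 : ℝ)) b := by
    funext b
    rw [Finset.card_filter]
    push_cast
    refine Finset.sum_congr rfl fun z _ => ?_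
    by_cases h : phi q z (phi p y b) ∈ V ∧ phi q ((y + p * z) % q) b ∈ G ((y + p * z) / q)
    · rw [Set.indicator_of_mem (by exact h), if_pos h]
    · rw [Set.indicator_of_notMem (by exact h), if_neg h]
  rw [h1]
  apply Finset.measurable_sum
  intro z _
  apply measurable_const.indicator
  exact (((hq q z hq1).comp (hq p y hp)) hV).inter ((hq q _ hq1) (hG _))

theorem meas_BadP {k : ℕ} (hq : ∀ D y : ℕ, 1 ≤ D → Measurable (phi D y : X k → X k))
    {p q : ℕ} (hp : 1 ≤ p) (hq1 : 1 ≤ q) {V : Set (X k)} {G : ℕ → Set (X k)}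
    (hV : MeasurableSet V) (hG : ∀ y, MeasurableSet (G y)) (kap : ℝ) (y : ℕ) :
    MeasurableSet {b : X k | BadP p q V G kap b y} := by
  classical
  unfold BadP
  refine measurableSet_le measurable_const ?_
  unfold difP
  refine Finset.measurable_sum _ fun κ _ => ?_
  refine Finset.measurable_sum _ fun κ' _ => ?_
  by_cases h : κ - κ' ∈ H k p 1
  · simp only [if_pos h]
    exact measurable_const
  · simp only [if_neg h]
    exact ((meas_acP hq hp hq1 hV hG y).comp (measurable_id.add_const κ)).mul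
      ((meas_acP hq hp hq1 hV hG y).comp (measurable_id.add_const κ'))

open Classical in
theorem pf_PLP (hPCP : T_PCP) (hCO : L_CO) (hAI : L_AI) : T_PLP := by
  intro k hk
  obtain ⟨C, hC, hPC⟩ := hPCP k hk
  refine ⟨C, hC, ?_⟩
  intro S V Ge Gd P m τ Ω kap hSD hkap hkap1 p hp q hq hpq
  have hPC' := hPC S V Ge Gd P m τ Ω kap hSD hkap hkap1 p hp q hq hpq
  have hpp := (hSD.pr p hp).1
  have hqp := (hSD.pr q hq).1
  have hp1 : 1 ≤ p := hpp.pos
  have hq1 : 1 ≤ q := hqp.pos
  have hco : p.Coprime q := (Nat.coprime_primes hpp hqp).2 hpq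
  have hΓ : H k (p * q) k = H k p k ⊔ H k q k := hCO.2.2.2.2 k p q hco
  have hK := KN_ge k (by omega)
  have hp0 : (0 : ℝ) < p := by exact_mod_cast hp1
  have hq0 : (0 : ℝ) < q := by exact_mod_cast hq1
  have hm0 : 0 ≤ m := by have := hSD.hm; linarith
  -- the sets
  obtain ⟨A, hA⟩ : ∃ A : ℕ → Set (X k), A = fun y =>
    {b : X k | phi p y b ∈ Ge q ∧ BadP p q V (Gd p) kap b y} := ⟨_, rfl⟩
  obtain ⟨B, hB⟩ : ∃ B : ℕ → Set (X k), B = fun z => {b : X k | phi q z b ∈ Ge p} := ⟨_, rfl⟩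
  have hAm : ∀ y, MeasurableSet (A y) := by
    intro y
    rw [hA]
    exact ((phiM p y hp1) (hSD.mE q hq)).inter
      (meas_BadP phiM hp1 hq1 hSD.mV (hSD.mG p hp) kap y)
  have hBm : ∀ z, MeasurableSet (B z) := by
    intro z
    rw [hB]
    exact (phiM q z hq1) (hSD.mE p hp)
  have hmA : ∀ y b, b ∈ A y ↔ phi p y b ∈ Ge q ∧ BadP p q V (Gd p) kap b y := by
    intro y b; rw [hA]; exact Iff.rfl
  have hmB : ∀ z b, b ∈ B z ↔ phi q z b ∈ Ge p := by
    intro z b; rw [hB]; exact Iff.rfl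
  set ΓF := HF k (p * q) k with hΓF
  obtain ⟨R, hR⟩ : ∃ R : ℝ, R = C * m ^ 3 / (kap ^ 3 * q) *
    ((p : ℝ) ^ (KN k) * (q : ℝ) ^ k) / ((q : ℝ) ^ (KN k) * (p : ℝ) ^ k) := ⟨_, rfl⟩
  have hR0 : 0 ≤ R := by rw [hR]; positivity
  -- pointwise
  have hpt : ∀ a : X k, ∑ y ∈ range p, ((ΓF.filter fun γ => a + γ ∈ A y).card : ℝ) ≤
      R * ∑ z ∈ range q, ((ΓF.filter fun γ => a + γ ∈ B z).card : ℝ) := by
    intro a
    have h1 := fun y => bad_reps hCO hp1 hq1 a y (A y)
    choose Y hY1 hY2 hY3 using h1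
    obtain ⟨hc1, hc2⟩ := hPC' a Y (fun y _ b hb => by
        have h2 := hY1 y b hb
        rw [hΓ] at h2
        exact ⟨h2.1, (hmA y b).1 h2.2⟩) (fun y _ b hb b' hb' hd' => hY2 y b hb b' hb' hd')
    have hL : ∑ y ∈ range p, ((ΓF.filter fun γ => a + γ ∈ A y).card : ℝ) ≤
        (p : ℝ) ^ (KN k) * (q : ℝ) ^ k * ∑ y ∈ range p, ((Y y).card : ℝ) := by
      rw [Finset.mul_sum]
      apply Finset.sum_le_sum
      intro y _
      have := hY3 y
      exact_mod_cast this
    by_cases hne : ∃ y < p, (Y y).Nonempty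
    · obtain ⟨Z, hZ1, hZ2, hZ3⟩ := hc2 hne
      have hG : (q : ℝ) ^ (KN k) * (p : ℝ) ^ k * (kap * q) ≤
          ∑ z ∈ range q, ((ΓF.filter fun γ => a + γ ∈ B z).card : ℝ) := by
        calc (q : ℝ) ^ (KN k) * (p : ℝ) ^ k * (kap * q)
            ≤ (q : ℝ) ^ (KN k) * (p : ℝ) ^ k * ∑ z ∈ range q, ((Z z).card : ℝ) :=
              mul_le_mul_of_nonneg_left hZ3 (by positivity)
          _ = ∑ z ∈ range q, (q : ℝ) ^ (KN k) * (p : ℝ) ^ k * ((Z z).card : ℝ) := by
              rw [Finset.mul_sum]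
          _ ≤ _ := by
              apply Finset.sum_le_sum
              intro z hz
              have hz' := Finset.mem_range.1 hz
              have h2 := good_count hCO hp1 hq1 hco (hSD.invE p hp) a z (Z z) (fun b hb => by
                have h3 := hZ1 z hz' b hb
                rw [← hΓ] at h3
                exact h3) (hZ2 z hz')
              have h4 : (ΓF.filter fun γ => a + γ ∈ B z) =
                  ΓF.filter fun γ => phi q z (a + γ) ∈ Ge p := by
                apply Finset.filter_congr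
                intro γ _
                exact hmB z (a + γ)
              rw [h4]
              exact_mod_cast h2
      calc ∑ y ∈ range p, ((ΓF.filter fun γ => a + γ ∈ A y).card : ℝ)
          ≤ (p : ℝ) ^ (KN k) * (q : ℝ) ^ k * ∑ y ∈ range p, ((Y y).card : ℝ) := hL
        _ ≤ (p : ℝ) ^ (KN k) * (q : ℝ) ^ k * (C * m ^ 3 / kap ^ 2) :=
            mul_le_mul_of_nonneg_left hc1 (by positivity)
        _ = R * ((q : ℝ) ^ (KN k) * (p : ℝ) ^ k * (kap * q)) := by
            rw [hR]; field_simp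
        _ ≤ _ := mul_le_mul_of_nonneg_left hG hR0
    · push Not at hne
      have h0 : ∑ y ∈ range p, ((Y y).card : ℝ) = 0 := by
        apply Finset.sum_eq_zero
        intro y hy
        rw [hne y (Finset.mem_range.1 hy)]
        simp
      rw [h0, mul_zero] at hL
      refine hL.trans ?_
      apply mul_nonneg hR0
      exact Finset.sum_nonneg fun _ _ => Nat.cast_nonneg _
  -- integration
  have hpq1 : 1 ≤ p * q := Nat.mul_pos hp1 hq1
  have hΓne : ΓF.Nonempty := by
    rw [← Finset.card_pos, hΓF, (hTO k (p * q) hpq1).2.2.1 k]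
    exact pow_pos hpq1 _
  have hi1 : ∑ y ∈ range p, volume.real (A y) ≤ R * ∑ z ∈ range q, volume.real (B z) := by
    have e1 : ∑ y ∈ range p, volume.real (A y) = (1 / (ΓF.card : ℝ)) *
        ∫ a : X k, ∑ y ∈ range p, ((ΓF.filter fun γ => a + γ ∈ A y).card : ℝ) := by
      rw [integral_finset_sum _ (fun y _ => card_int ΓF (A y) (hAm y)), Finset.mul_sum]
      exact Finset.sum_congr rfl fun y _ => vol_avg hAI ΓF hΓne (A y) (hAm y)
    have e2 : ∑ z ∈ range q, volume.real (B z) = (1 / (ΓF.card : ℝ)) *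
        ∫ a : X k, ∑ z ∈ range q, ((ΓF.filter fun γ => a + γ ∈ B z).card : ℝ) := by
      rw [integral_finset_sum _ (fun z _ => card_int ΓF (B z) (hBm z)), Finset.mul_sum]
      exact Finset.sum_congr rfl fun z _ => vol_avg hAI ΓF hΓne (B z) (hBm z)
    rw [e1, e2]
    have h3 : ∫ a : X k, ∑ y ∈ range p, ((ΓF.filter fun γ => a + γ ∈ A y).card : ℝ) ≤
        ∫ a : X k, R * ∑ z ∈ range q, ((ΓF.filter fun γ => a + γ ∈ B z).card : ℝ) := by
      apply integral_mono _ _ hpt
      · exact integrable_finset_sum _ (fun y _ => card_int ΓF (A y) (hAm y))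
      · exact (integrable_finset_sum _ (fun z _ => card_int ΓF (B z) (hBm z))).const_mul _
    rw [integral_const_mul] at h3
    calc 1 / (ΓF.card : ℝ) * ∫ a : X k, ∑ y ∈ range p, ((ΓF.filter fun γ => a + γ ∈ A y).card : ℝ)
        ≤ 1 / (ΓF.card : ℝ) * (R * ∫ a : X k, ∑ z ∈ range q,
          ((ΓF.filter fun γ => a + γ ∈ B z).card : ℝ)) :=
          mul_le_mul_of_nonneg_left h3 (by positivity)
      _ = _ := by ring
  have hBv : ∑ z ∈ range q, volume.real (B z) = q * volume.real (Ge p) := by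
    have : ∀ z ∈ range q, volume.real (B z) = volume.real (Ge p) := by
      intro z _
      rw [hB]
      exact vol_phi q z hq1 (hSD.mE p hp)
    rw [Finset.sum_congr rfl this, Finset.sum_const, Finset.card_range, nsmul_eq_mul]
  rw [hBv] at hi1
  have hAv : ∑ y ∈ range p, volume.real {b : X k | phi p y b ∈ Ge q ∧
      BadP p q V (Gd p) kap b y} = ∑ y ∈ range p, volume.real (A y) := by
    rw [hA]
  rw [hAv]
  have hms := hSD.ms p hp
  have hPp : P ≤ p := (hSD.pr p hp).2.2.1
  have hP1 := hSD.hP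
  have hΩ := hSD.hΩ
  have hpow1 : (p : ℝ) ^ (KN k) = (p : ℝ) ^ (KN k - k) * (p : ℝ) ^ k := by
    rw [← pow_add]; congr 1; omega
  have hpow2 : (q : ℝ) ^ (KN k) = (q : ℝ) ^ (KN k - k) * (q : ℝ) ^ k := by
    rw [← pow_add]; congr 1; omega
  calc (q : ℝ) ^ (KN k - k) * (1 / (p : ℝ) * ∑ y ∈ range p, volume.real (A y))
      ≤ (q : ℝ) ^ (KN k - k) * (1 / (p : ℝ) * (R * (q * volume.real (Ge p)))) := by
        apply mul_le_mul_of_nonneg_left _ (by positivity)
        exact mul_le_mul_of_nonneg_left hi1 (by positivity)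
    _ = C * m ^ 3 / (kap ^ 3 * p) * ((p : ℝ) ^ (KN k - k) * volume.real (Ge p)) := by
        rw [hR, hpow1, hpow2]
        field_simp
    _ ≤ C * m ^ 3 / (kap ^ 3 * p) * Ω :=
        mul_le_mul_of_nonneg_left hms (by positivity)
    _ ≤ C * m ^ 3 / (kap ^ 3 * P) * Ω := by
        apply mul_le_mul_of_nonneg_right _ hΩ
        apply div_le_div_of_nonneg_left (by positivity) (by positivity)
        exact mul_le_mul_of_nonneg_left hPp (by positivity)

end Pool.Agent.H59.ES
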