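import Pool.Agent.H26.ES.Targets
import Pool.Agent.H60.LVP.RT
import Pool.Agent.H60.LVP.LM

/-!
# Stars with positions: levels and transport (for the rows RTN and MVV)
-/

set_option autoImplicit false

open Finset MeasureTheory

namespace Pool.Agent.H59.ES

open Pool.Agent.H24.CL Pool.Agent.H24.LV Pool.Agent.H26.ES Pool.Agent.H60.LVP

theorem KN_ge6 (k : ℕ) (hk : 3 ≤ k) : 6 ≤ KN k ∧ k + 1 ≤ KN k := by
  unfold KN
  have h1 : 12 ≤ k * (k + 1) := by nlinarith
  have h2 : 2 * (k + 1) ≤ k * (k + 1) := by nlinarith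
  constructor <;> omega

/-- the upper level sets -/
def Ul (k N : ℕ) (r : ℝ) : Set (X k) := {v : X k | r ≤ ‖u N v‖}

theorem hum (k N : ℕ) : Measurable fun v : X k => ‖u N v‖ :=
  (hEX.2.2.2.2.2.2.2.1 k N).norm.measurable

theorem hu1 (k N : ℕ) (v : X k) : ‖u N v‖ ≤ 1 := hEX.2.2.2.2.2.2.2.2 k N v

theorem mUl (k N : ℕ) (r : ℝ) : MeasurableSet (Ul k N r) :=
  measurableSet_le measurable_const (hum k N)

/-- the level of a number -/
theorem dy {x r : ℝ} {J : ℕ} (hr : r ≤ x) (hx : x ≤ 1) (hJ : 1 < 2 ^ J * r) :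
    ∃ i < J, 2 ^ i * r ≤ x ∧ x ≤ 2 * (2 ^ i * r) := by
  classical
  have hex : ∃ j, x < 2 ^ j * r := ⟨J, lt_of_le_of_lt hx hJ⟩
  have hfind := Nat.find_spec hex
  have hpos : 0 < Nat.find hex := by
    rw [Nat.pos_iff_ne_zero]
    intro h0
    rw [h0, pow_zero, one_mul] at hfind
    linarith
  obtain ⟨i, hi⟩ := Nat.exists_eq_succ_of_ne_zero hpos.ne'
  have hi1 : 2 ^ i * r ≤ x := by
    have := Nat.find_min hex (m := i) (by omega)
    exact not_lt.1 this
  have hi2 : x ≤ 2 * (2 ^ i * r) := by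
    rw [hi, pow_succ] at hfind
    linarith
  have hiJ : i < J := by
    have := Nat.find_min' hex (lt_of_le_of_lt hx hJ)
    omega
  exact ⟨i, hiJ, hi1, hi2⟩

open Classical in
/-- the density as an average of the indicator -/
theorem hd_eq {k : ℕ} (q : ℕ) (V : Set (X k)) (a : X k) :
    hd q V a = (1 / (q : ℝ)) * ∑ b ∈ range q, if phi q b a ∈ V then (1 : ℝ) else 0 := by
  unfold hd pos
  rw [Finset.card_filter]
  push_cast
  rw [one_div, inv_mul_eq_div]

/-- transport: the two cases -/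
theorem transp (hTPU : T_TPU) (hTPM : T_TPM) {k : ℕ} (hk : 3 ≤ k) {C : ℝ} (hC : 1 ≤ C)
    (hW : ∀ (N : ℕ) (t : ℝ), 1 ≤ N → 0 < t →
      (N : ℝ) ^ (KN k) * t ^ (2 * KN k) * volume.real {a : X k | t ≤ ‖u N a‖} ≤ C)
    {q N : ℕ} {m ν θ r : ℝ} {B : Set (X k)} (hq : q.Prime) (hkq : k < q) (hN : 1 ≤ N)
    (hm : 1 ≤ m) (hν : 1 ≤ ν) (hθ : 0 < θ) (hr : 0 < r) (hB : MeasurableSet B)
    (hc1 : Cnt (H k q k) B m) (hc2 : Cnt (H k q 1) B ν) (hd' : ∀ a ∈ B, θ ≤ hd q (Ul k N r) a) :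
    (2 * k * m ≤ θ * q → ((q : ℝ) * N) ^ (KN k) * r ^ (2 * KN k) * volume.real B ≤
      2 / θ * ν * C) ∧
    ((q : ℝ) * N) ^ (KN k) * r ^ (2 * KN k) * volume.real B ≤ q * m * C := by
  have hq1 : 1 ≤ q := hq.one_lt.le
  have hq0 : (0 : ℝ) < q := by exact_mod_cast hq.pos
  have hN0 : (0 : ℝ) < N := by exact_mod_cast hN
  have hw := hW N r hN hr
  have e : ∀ c : ℝ, 0 ≤ c → (q : ℝ) ^ (KN k) * volume.real B ≤ c * volume.real (Ul k N r) →
      ((q : ℝ) * N) ^ (KN k) * r ^ (2 * KN k) * volume.real B ≤ c * C := by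
    intro c hc h
    calc ((q : ℝ) * N) ^ (KN k) * r ^ (2 * KN k) * volume.real B
        = ((N : ℝ) ^ (KN k) * r ^ (2 * KN k)) * ((q : ℝ) ^ (KN k) * volume.real B) := by
          rw [mul_pow]; ring
      _ ≤ ((N : ℝ) ^ (KN k) * r ^ (2 * KN k)) * (c * volume.real (Ul k N r)) :=
          mul_le_mul_of_nonneg_left h (by positivity)
      _ = c * ((N : ℝ) ^ (KN k) * r ^ (2 * KN k) * volume.real (Ul k N r)) := by ring
      _ ≤ c * C := mul_le_mul_of_nonneg_left hw hc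
  constructor
  · intro h
    exact e _ (by positivity) (hTPU k q B (Ul k N r) ν m θ (by omega) hq hkq hB (mUl k N r) hν hm
      hθ hc1 hc2 hd' h)
  · have h1 := hTPM k q B (Ul k N r) m (1 / q) (by omega) hq1 hB (mUl k N r) hm (by positivity)
      hc1 (fun a ha => by
        have h2 := hd' a ha
        unfold hd at h2 ⊢
        have h3 : 0 < ((pos q (Ul k N r) a).card : ℝ) := by
          by_contra h4
          push Not at h4
          have h5 : ((pos q (Ul k N r) a).card : ℝ) = 0 := le_antisymm h4 (Nat.cast_nonneg _)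
          rw [h5, zero_div] at h2
          linarith
        have h4 : (1 : ℝ) ≤ ((pos q (Ul k N r) a).card : ℝ) := by
          have : 0 < (pos q (Ul k N r) a).card := by exact_mod_cast h3
          exact_mod_cast this
        exact div_le_div_of_nonneg_right h4 hq0.le)
    have h2 : 1 / (1 / (q : ℝ)) * m = q * m := by rw [one_div_one_div]
    rw [h2] at h1
    exact e _ (by positivity) h1

/-- geometric series -/
theorem geo_lt (J : ℕ) : ∑ l ∈ range J, (1 / 2 : ℝ) ^ l < 2 := by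
  have h9 := geom_sum_eq (show (1 / 2 : ℝ) ≠ 1 by norm_num) J
  rw [h9]
  have : (0 : ℝ) < (1 / 2) ^ J := by positivity
  rw [div_lt_iff_of_neg (by norm_num)]
  linarith

theorem geo4 (J : ℕ) : ∑ l ∈ range J, (1 / 4 : ℝ) ^ l ≤ 2 := by
  refine le_trans (Finset.sum_le_sum fun l _ => ?_) (geo_lt J).le
  exact pow_le_pow_left₀ (by norm_num) (by norm_num) l

end Pool.Agent.H59.ES
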