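import Pool.Agent.H59.ES.Lev

/-!
# Stars with positions: row MVV, few alive points on lines with a large mean square
-/

set_option autoImplicit false

open Finset MeasureTheory

namespace Pool.Agent.H59.ES

open Pool.Agent.H24.CL Pool.Agent.H24.LV Pool.Agent.H26.ES Pool.Agent.H60.LVP

/-- the level of a number, basis `4` -/
theorem dy4 {x r : ℝ} {J : ℕ} (hr : r ≤ x) (hx : x ≤ 1) (hJ : 1 < 4 ^ J * r) :
    ∃ i < J, 4 ^ i * r ≤ x ∧ x ≤ 4 * (4 ^ i * r) := by
  classical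
  have hex : ∃ j, x < 4 ^ j * r := ⟨J, lt_of_le_of_lt hx hJ⟩
  have hfind := Nat.find_spec hex
  have hpos : 0 < Nat.find hex := by
    rw [Nat.pos_iff_ne_zero]
    intro h0
    rw [h0, pow_zero, one_mul] at hfind
    linarith
  obtain ⟨i, hi⟩ := Nat.exists_eq_succ_of_ne_zero hpos.ne'
  have hi1 : 4 ^ i * r ≤ x := by
    have := Nat.find_min hex (m := i) (by omega)
    exact not_lt.1 this
  have hi2 : x ≤ 4 * (4 ^ i * r) := by
    rw [hi, pow_succ] at hfind
    linarith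
  have hiJ : i < J := by
    have := Nat.find_min' hex (lt_of_le_of_lt hx hJ)
    omega
  exact ⟨i, hiJ, hi1, hi2⟩

theorem VD_le {k : ℕ} (q N : ℕ) (hq : 1 ≤ q) (a : X k) : VD q N a ≤ 1 := by
  have hq0 : (0 : ℝ) < q := by exact_mod_cast hq
  unfold VD
  rw [one_div, inv_mul_le_iff₀ hq0, mul_one]
  calc ∑ x ∈ range q, ‖u N (phi q x a)‖ ^ 2 ≤ ∑ _x ∈ range q, (1 : ℝ) :=
        Finset.sum_le_sum fun x _ => pow_le_one₀ (norm_nonneg _) (hu1 k N _)
    _ = q := by rw [Finset.sum_const, Finset.card_range, nsmul_eq_mul, mul_one]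

theorem meas_VD {k : ℕ} (q N : ℕ) (hq : 1 ≤ q) : Measurable fun a : X k => VD q N a := by
  unfold VD
  apply Measurable.const_mul
  apply Finset.measurable_sum
  intro x _
  exact ((hum k N).comp (phiM q x hq)).pow_const 2

open Classical in
/-- a line with a large mean square has many cells at some level -/
theorem pigeon {k q N J : ℕ} {r : ℝ} (hq : 1 ≤ q) (hr : 0 < r) (hJ : 1 < 2 ^ J * r) (a : X k)
    (hV : 4 * r ^ 2 ≤ VD q N a) :
    ∃ l < J, (1 / 8 : ℝ) ^ l / 4 ≤ hd q (Ul k N (2 ^ l * r)) a := by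
  have hq0 : (0 : ℝ) < q := by exact_mod_cast hq
  by_contra hno
  push Not at hno
  have h3 : ∀ b ∈ range q, ‖u N (phi q b a)‖ ^ 2 ≤ r ^ 2 +
      ∑ l ∈ range J, 4 * (4 ^ l * r ^ 2) *
        (if phi q b a ∈ Ul k N (2 ^ l * r) then (1 : ℝ) else 0) := by
    intro b _
    have hnn : ∀ l ∈ range J, 0 ≤ 4 * (4 ^ l * r ^ 2) *
        (if phi q b a ∈ Ul k N (2 ^ l * r) then (1 : ℝ) else 0) := by
      intro l _
      apply mul_nonneg (by positivity)
      split_ifs <;> norm_num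
    have hS0 := Finset.sum_nonneg hnn
    by_cases h5 : r ≤ ‖u N (phi q b a)‖
    · obtain ⟨i, hi, hi1, hi2⟩ := dy h5 (hu1 k N _) hJ
      have h6 := Finset.single_le_sum hnn (Finset.mem_range.2 hi)
      rw [if_pos (show phi q b a ∈ Ul k N (2 ^ i * r) from hi1), mul_one] at h6
      have h7 : ‖u N (phi q b a)‖ ^ 2 ≤ (2 * (2 ^ i * r)) ^ 2 :=
        pow_le_pow_left₀ (norm_nonneg _) hi2 2
      have h8 : (2 * (2 ^ i * r)) ^ 2 = 4 * (4 ^ i * r ^ 2) := by
        rw [mul_pow, mul_pow, ← pow_mul, mul_comm i 2, pow_mul]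
        norm_num
      have h9 : 0 ≤ r ^ 2 := by positivity
      linarith
    · push Not at h5
      have h7 : ‖u N (phi q b a)‖ ^ 2 ≤ r ^ 2 := pow_le_pow_left₀ (norm_nonneg _) h5.le 2
      linarith
  have h4 := Finset.sum_le_sum h3
  rw [Finset.sum_add_distrib, Finset.sum_const, Finset.card_range, nsmul_eq_mul,
    Finset.sum_comm] at h4
  have h5 : ∀ U : Set (X k), ∑ b ∈ range q, (if phi q b a ∈ U then (1 : ℝ) else 0) =
      q * hd q U a := by
    intro U
    rw [hd_eq]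
    field_simp
  have h6 : ∑ l ∈ range J, ∑ b ∈ range q, 4 * (4 ^ l * r ^ 2) *
      (if phi q b a ∈ Ul k N (2 ^ l * r) then (1 : ℝ) else 0) =
      (q : ℝ) * ∑ l ∈ range J, 4 * (4 ^ l * r ^ 2) * hd q (Ul k N (2 ^ l * r)) a := by
    rw [Finset.mul_sum]
    refine Finset.sum_congr rfl fun l _ => ?_
    rw [← Finset.mul_sum, h5]
    ring
  rw [h6] at h4
  have h7 : ∑ l ∈ range J, 4 * (4 ^ l * r ^ 2) * hd q (Ul k N (2 ^ l * r)) a < 2 * r ^ 2 := by
    have h8 : ∑ l ∈ range J, 4 * (4 ^ l * r ^ 2) * hd q (Ul k N (2 ^ l * r)) a ≤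
        ∑ l ∈ range J, r ^ 2 * (1 / 2) ^ l := by
      refine Finset.sum_le_sum fun l hl => ?_
      have h9 := (hno l (Finset.mem_range.1 hl)).le
      calc 4 * (4 ^ l * r ^ 2) * hd q (Ul k N (2 ^ l * r)) a
          ≤ 4 * (4 ^ l * r ^ 2) * ((1 / 8) ^ l / 4) := mul_le_mul_of_nonneg_left h9 (by positivity)
        _ = r ^ 2 * (4 ^ l * (1 / 8) ^ l) := by ring
        _ = r ^ 2 * (1 / 2) ^ l := by
            rw [← mul_pow]
            norm_num
    rw [← Finset.mul_sum] at h8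
    have h10 := mul_lt_mul_of_pos_left (geo_lt J) (show (0 : ℝ) < r ^ 2 by positivity)
    linarith
  unfold VD at hV
  rw [one_div, inv_mul_eq_div, le_div_iff₀ hq0] at hV
  have h13 := mul_lt_mul_of_pos_left h7 hq0
  have h14 : 0 < q * r ^ 2 := by positivity
  linarith

open Classical in
theorem pf_MVV (hNWT : T_NWT) (hTPU : T_TPU) (hTPM : T_TPM) (hWT : L_WT) : T_MVV := by
  intro k hk
  obtain ⟨C, hC, hW⟩ := hWT k hk
  obtain ⟨K, hKe⟩ : ∃ K, K = KN k := ⟨_, rfl⟩
  have hK6 : 6 ≤ K := by rw [hKe]; exact (KN_ge6 k hk).1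
  have hKk : k + 1 ≤ K := by rw [hKe]; exact (KN_ge6 k hk).2
  obtain ⟨c, hc⟩ : ∃ c : ℝ, c = 4 ^ K * C * (8 * (Nat.factorial k : ℝ) * 4 ^ k + (8 * k) ^ 3) :=
    ⟨_, rfl⟩
  have hf1 : (1 : ℝ) ≤ (Nat.factorial k : ℝ) := by
    exact_mod_cast Nat.succ_le_of_lt (Nat.factorial_pos k)
  have hc0 : 1 ≤ c := by
    have h1 : (1 : ℝ) ≤ 4 ^ K := one_le_pow₀ (by norm_num)
    have h2 : (0 : ℝ) ≤ (8 * k) ^ 3 := by positivity
    have h3 : 1 ≤ (4 : ℝ) ^ K * C := by nlinarith
    have h4 : (1 : ℝ) ≤ 4 ^ k := one_le_pow₀ (by norm_num)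
    have h5 : 1 ≤ 8 * (Nat.factorial k : ℝ) * 4 ^ k := by nlinarith
    rw [hc]
    nlinarith
  refine ⟨4 * c, by linarith, ?_⟩
  intro q N t m lam A hq hkq hN ht hm hmq hlam hA hAt hc1
  have hq1 : 1 ≤ q := hq.one_lt.le
  have hq0 : (0 : ℝ) < q := by exact_mod_cast hq.pos
  have hk0 : (0 : ℝ) < k := by
    have : 0 < k := by omega
    exact_mod_cast this
  have hlam0 : 0 < lam := by linarith
  have hmq4 : m ^ 4 ≤ q := by
    refine le_trans ?_ hmq
    exact pow_le_pow_right₀ hm (by norm_num)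
  obtain ⟨L, hL⟩ : ∃ L : ℕ → ℝ, ∀ j, L j = 4 ^ j * lam := ⟨_, fun _ => rfl⟩
  have hL1 : ∀ j, 1 ≤ L j := by
    intro j
    rw [hL]
    have : (1 : ℝ) ≤ 4 ^ j := one_le_pow₀ (by norm_num)
    nlinarith
  obtain ⟨r, hr⟩ : ∃ r : ℕ → ℝ, ∀ j, r j = Real.sqrt (L j) * t / 2 := ⟨_, fun _ => rfl⟩
  have hr0 : ∀ j, 0 < r j := by
    intro j
    rw [hr]
    have := Real.sqrt_pos.2 (lt_of_lt_of_le one_pos (hL1 j))
    positivity
  have hr2 : ∀ j, r j ^ 2 = L j * t ^ 2 / 4 := by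
    intro j
    rw [hr, div_pow, mul_pow, Real.sq_sqrt (by linarith [hL1 j])]
    norm_num
  have hrt : ∀ j, t / 2 ≤ r j := by
    intro j
    rw [hr]
    have : 1 ≤ Real.sqrt (L j) := by
      rw [Real.one_le_sqrt]
      exact hL1 j
    nlinarith
  obtain ⟨J1, hJ1⟩ := pow_unbounded_of_one_lt (1 / (lam * t ^ 2)) (show (1 : ℝ) < 4 by norm_num)
  have hJ1' : 1 < 4 ^ J1 * (lam * t ^ 2) := by rwa [div_lt_iff₀ (by positivity)] at hJ1
  obtain ⟨J2, hJ2⟩ := pow_unbounded_of_one_lt (1 / (t / 2)) (one_lt_two (α := ℝ))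
  have hJ2' : ∀ j, 1 < 2 ^ J2 * r j := by
    intro j
    rw [div_lt_iff₀ (by positivity)] at hJ2
    exact lt_of_lt_of_le hJ2 (mul_le_mul_of_nonneg_left (hrt j) (by positivity))
  obtain ⟨Aj, hAj⟩ : ∃ Aj : ℕ → Set (X k), ∀ j, Aj j = {a : X k | a ∈ A ∧
      L j * t ^ 2 ≤ VD q N a ∧ VD q N a ≤ 4 * (L j * t ^ 2)} := ⟨_, fun _ => rfl⟩
  have hmAj : ∀ j a, a ∈ Aj j ↔ a ∈ A ∧ L j * t ^ 2 ≤ VD q N a ∧
      VD q N a ≤ 4 * (L j * t ^ 2) := by
    intro j a; rw [hAj]; exact Iff.rfl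
  have hAjm : ∀ j, MeasurableSet (Aj j) := by
    intro j
    rw [hAj]
    exact hA.inter ((measurableSet_le measurable_const (meas_VD q N hq1)).inter
      (measurableSet_le (meas_VD q N hq1) measurable_const))
  obtain ⟨B, hB⟩ : ∃ B : ℕ → ℕ → Set (X k), ∀ j l, B j l =
      {a : X k | a ∈ Aj j ∧ (1 / 8 : ℝ) ^ l / 4 ≤ hd q (Ul k N (2 ^ l * r j)) a} :=
    ⟨_, fun _ _ => rfl⟩
  have hmB : ∀ j l a, a ∈ B j l ↔ a ∈ Aj j ∧
      (1 / 8 : ℝ) ^ l / 4 ≤ hd q (Ul k N (2 ^ l * r j)) a := by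
    intro j l a; rw [hB]; exact Iff.rfl
  have hBm : ∀ j l, MeasurableSet (B j l) := by
    intro j l
    rw [hB]
    exact (hAjm j).inter (measurableSet_le measurable_const (meas_hd q hq1 (mUl k N _)))
  -- covering
  have hcov : {a : X k | a ∈ A ∧ lam * t ^ 2 ≤ VD q N a} ⊆
      ⋃ j ∈ range J1, ⋃ l ∈ range J2, B j l := by
    rintro a ⟨ha, hV⟩
    obtain ⟨j, hj, hj1, hj2⟩ := dy4 hV (VD_le q N hq1 a) hJ1'
    have eL : (4 : ℝ) ^ j * (lam * t ^ 2) = L j * t ^ 2 := by rw [hL, mul_assoc]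
    rw [eL] at hj1 hj2
    have haj : a ∈ Aj j := (hmAj j a).2 ⟨ha, hj1, hj2⟩
    obtain ⟨l, hl, hl1⟩ := pigeon (N := N) hq1 (hr0 j) (hJ2' j) a (by rw [hr2]; linarith)
    exact Set.mem_biUnion (show j ∈ (range J1 : Set ℕ) from by simpa using hj)
      (Set.mem_biUnion (show l ∈ (range J2 : Set ℕ) from by simpa using hl)
        ((hmB j l a).2 ⟨haj, hl1⟩))
  -- the pieces
  have hpiece : ∀ j l : ℕ, ((q : ℝ) * N) ^ K * t ^ (2 * K) * volume.real (B j l) ≤
      c * (1 / lam ^ (K - k) + 1 / q) * ((1 / 4) ^ j * (1 / 4) ^ l) := by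
    intro j l
    obtain ⟨Λ, hΛ⟩ : ∃ Λ, Λ = L j := ⟨_, rfl⟩
    have hΛ1 : 1 ≤ Λ := by rw [hΛ]; exact hL1 j
    have hΛ0 : 0 < Λ := by linarith
    obtain ⟨ν, hν⟩ : ∃ ν : ℝ, ν = (Nat.factorial k : ℝ) * (4 * Λ) ^ k := ⟨_, rfl⟩
    have hν1 : 1 ≤ ν := by
      have h1 : (1 : ℝ) ≤ (4 * Λ) ^ k := one_le_pow₀ (by linarith)
      rw [hν]
      nlinarith
    have hν2 : Cnt (H k q 1) (B j l) ν := by
      intro Y hY hd'
      rcases Y.eq_empty_or_nonempty with h0 | ⟨a, ha⟩
      · rw [h0, Finset.card_empty, Nat.cast_zero]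
        linarith
      · have hin : ∀ y ∈ Y, y ∈ A := fun y hy => ((hmAj j y).1 ((hmB j l y).1 (hY y hy)).1).1
        have h1 := hNWT k q N t a Y (by omega) hq hkq hN ht
          (fun y hy => ⟨hd' y hy a ha, hAt y (hin y hy)⟩)
        refine h1.trans ?_
        rw [hν]
        apply mul_le_mul_of_nonneg_left _ (by positivity)
        apply pow_le_pow_left₀
        · apply div_nonneg _ (by positivity)
          unfold VD
          positivity
        · rw [div_le_iff₀ (by positivity), hΛ]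
          have := ((hmAj j a).1 ((hmB j l a).1 (hY a ha)).1).2.2
          linarith
    have hθ0 : (0 : ℝ) < (1 / 8) ^ l / 4 := by positivity
    have hρ0 : 0 < 2 ^ l * r j := by
      have := hr0 j
      positivity
    obtain ⟨ta, tb⟩ := transp hTPU hTPM hk hC hW hq hkq hN hm hν1 hθ0 hρ0 (hBm j l)
      (fun Y hY hd' => hc1 Y (fun y hy => ((hmAj j y).1 ((hmB j l y).1 (hY y hy)).1).1) hd')
      hν2 (fun a ha => ((hmB j l a).1 ha).2)
    rw [← hKe] at ta tb
    obtain ⟨v, hv⟩ : ∃ v, v = volume.real (B j l) := ⟨_, rfl⟩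
    rw [← hv] at ta tb ⊢
    have hv0 : 0 ≤ v := by rw [hv]; exact measureReal_nonneg
    have et : t ^ (2 * K) = (4 / Λ) ^ K * (1 / 4) ^ (l * K) * (2 ^ l * r j) ^ (2 * K) := by
      have e1 : (2 ^ l * r j) ^ (2 * K) = (4 ^ l * (Λ * t ^ 2 / 4)) ^ K := by
        rw [pow_mul, mul_pow, hr2, ← hΛ, ← pow_mul, mul_comm l 2, pow_mul]
        norm_num
      rw [e1, pow_mul, pow_mul, ← mul_pow, ← mul_pow]
      congr 1
      have e4 : (1 / 4 : ℝ) ^ l * 4 ^ l = 1 := by
        rw [← mul_pow]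
        norm_num
      calc t ^ 2 = (4 / Λ) * (Λ * t ^ 2 / 4) * 1 := by field_simp
        _ = (4 / Λ) * (Λ * t ^ 2 / 4) * ((1 / 4) ^ l * 4 ^ l) := by rw [e4]
        _ = _ := by ring
    have el : ((q : ℝ) * N) ^ K * t ^ (2 * K) * v = (4 / Λ) ^ K * (1 / 4) ^ (l * K) *
        (((q : ℝ) * N) ^ K * (2 ^ l * r j) ^ (2 * K) * v) := by
      rw [et]; ring
    have h8l0 : (0 : ℝ) < (1 / 8) ^ l := by positivity
    have h84 : (1 / 8 : ℝ) ^ l ≤ (1 / 4) ^ l := pow_le_pow_left₀ (by norm_num) (by norm_num) l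
    have h4j : (1 : ℝ) ≤ 4 ^ j := one_le_pow₀ (by norm_num)
    have i4j : (1 / 4 : ℝ) ^ j = 1 / 4 ^ j := by rw [div_pow, one_pow]
    rcases le_total (2 * k * m) ((1 / 8 : ℝ) ^ l / 4 * q) with h | h
    · -- many cells
      have h1 := ta h
      have h2 : (1 / 4 : ℝ) ^ (l * K) ≤ (1 / 8) ^ l * (1 / 8) ^ l := by
        calc (1 / 4 : ℝ) ^ (l * K) ≤ (1 / 4) ^ (l * 3) := by
              apply pow_le_pow_of_le_one (by norm_num) (by norm_num)
              exact Nat.mul_le_mul_left _ (by omega)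
          _ = (1 / 8) ^ l * (1 / 8) ^ l := by
              rw [mul_comm l 3, pow_mul, ← mul_pow]
              norm_num
      have e8 : (8 : ℝ) ^ l * (1 / 8) ^ l = 1 := by
        rw [← mul_pow]
        norm_num
      have hΛp : 1 / Λ ^ (K - k) ≤ (1 / 4) ^ j * (1 / lam ^ (K - k)) := by
        rw [i4j, hΛ, hL, mul_pow, ← one_div_mul_one_div]
        have h6 : (4 : ℝ) ^ j ≤ (4 ^ j) ^ (K - k) := by
          apply le_self_pow₀ h4j
          omega
        have h7 : 1 / ((4 : ℝ) ^ j) ^ (K - k) ≤ 1 / 4 ^ j :=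
          one_div_le_one_div_of_le (by positivity) h6
        exact mul_le_mul_of_nonneg_right h7 (by positivity)
      calc ((q : ℝ) * N) ^ K * t ^ (2 * K) * v
          = (4 / Λ) ^ K * (1 / 4) ^ (l * K) *
            (((q : ℝ) * N) ^ K * (2 ^ l * r j) ^ (2 * K) * v) := el
        _ ≤ (4 / Λ) ^ K * (1 / 4) ^ (l * K) * (2 / ((1 / 8) ^ l / 4) * ν * C) :=
            mul_le_mul_of_nonneg_left h1 (by positivity)
        _ ≤ (4 / Λ) ^ K * ((1 / 8) ^ l * (1 / 8) ^ l) * (2 / ((1 / 8) ^ l / 4) * ν * C) :=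
            mul_le_mul_of_nonneg_right (mul_le_mul_of_nonneg_left h2 (by positivity))
              (by positivity)
        _ = 4 ^ K * C * (8 * (Nat.factorial k : ℝ) * 4 ^ k) * (1 / Λ ^ (K - k)) *
            (1 / 8) ^ l := by
            have e5 : Λ ^ K = Λ ^ (K - k) * Λ ^ k := by
              rw [← pow_add]; congr 1; omega
            rw [hν, div_pow, mul_pow, e5]
            field_simp
            ring
        _ ≤ 4 ^ K * C * (8 * (Nat.factorial k : ℝ) * 4 ^ k) *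
            ((1 / 4) ^ j * (1 / lam ^ (K - k))) * (1 / 4) ^ l := by
            apply mul_le_mul _ h84 h8l0.le (by positivity)
            exact mul_le_mul_of_nonneg_left hΛp (by positivity)
        _ = 4 ^ K * C * (8 * (Nat.factorial k : ℝ) * 4 ^ k) * (1 / lam ^ (K - k)) *
            ((1 / 4) ^ j * (1 / 4) ^ l) := by ring
        _ ≤ c * (1 / lam ^ (K - k) + 1 / q) * ((1 / 4) ^ j * (1 / 4) ^ l) := by
            apply mul_le_mul_of_nonneg_right _ (by positivity)
            rw [hc]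
            apply mul_le_mul
            · apply mul_le_mul_of_nonneg_left _ (by positivity)
              have : (0 : ℝ) ≤ (8 * k) ^ 3 := by positivity
              linarith
            · have : (0 : ℝ) ≤ 1 / q := by positivity
              linarith
            · positivity
            · positivity
    · -- few cells
      have h3 : (1 / 8 : ℝ) ^ l ≤ 8 * k * m / q := by
        rw [le_div_iff₀ hq0]
        linarith
      have h4 : (1 / 4 : ℝ) ^ (l * K) ≤ (8 * k * m / q) ^ 3 * (1 / 4) ^ l := by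
        calc (1 / 4 : ℝ) ^ (l * K) ≤ (1 / 4) ^ (l * 6) := by
              apply pow_le_pow_of_le_one (by norm_num) (by norm_num)
              exact Nat.mul_le_mul_left _ hK6
          _ = ((1 / 8) ^ l) ^ 3 * (1 / 8) ^ l := by
              have e9 : ((1 / 8 : ℝ) ^ l) ^ 3 * (1 / 8) ^ l = (1 / 8) ^ (4 * l) := by
                rw [← pow_mul, ← pow_add]
                congr 1
                ring
              rw [e9, mul_comm l 6, pow_mul, pow_mul (1 / 8 : ℝ) 4 l]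
              norm_num
          _ ≤ (8 * k * m / q) ^ 3 * (1 / 4) ^ l :=
              mul_le_mul (pow_le_pow_left₀ h8l0.le h3 3) h84 h8l0.le (by positivity)
      have h5 : 1 / Λ ^ K ≤ (1 / 4) ^ j := by
        rw [i4j]
        apply one_div_le_one_div_of_le (by positivity)
        calc (4 : ℝ) ^ j ≤ 4 ^ j * lam := by nlinarith
          _ = Λ := by rw [hΛ, hL]
          _ ≤ Λ ^ K := le_self_pow₀ hΛ1 (by omega)
      calc ((q : ℝ) * N) ^ K * t ^ (2 * K) * v
          = (4 / Λ) ^ K * (1 / 4) ^ (l * K) *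
            (((q : ℝ) * N) ^ K * (2 ^ l * r j) ^ (2 * K) * v) := el
        _ ≤ (4 / Λ) ^ K * (1 / 4) ^ (l * K) * (q * m * C) :=
            mul_le_mul_of_nonneg_left tb (by positivity)
        _ ≤ (4 / Λ) ^ K * ((8 * k * m / q) ^ 3 * (1 / 4) ^ l) * (q * m * C) :=
            mul_le_mul_of_nonneg_right (mul_le_mul_of_nonneg_left h4 (by positivity))
              (by positivity)
        _ = 4 ^ K * C * (8 * k) ^ 3 * ((m ^ 4 / q) * (1 / q)) * ((1 / Λ ^ K) * (1 / 4) ^ l) := by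
            rw [div_pow]
            field_simp
        _ ≤ 4 ^ K * C * (8 * k) ^ 3 * (1 / q) * ((1 / 4) ^ j * (1 / 4) ^ l) := by
            apply mul_le_mul
            · apply mul_le_mul_of_nonneg_left _ (by positivity)
              have h6 : m ^ 4 / q ≤ 1 := by
                rw [div_le_one hq0]
                exact hmq4
              calc m ^ 4 / q * (1 / q) ≤ 1 * (1 / q) :=
                    mul_le_mul_of_nonneg_right h6 (by positivity)
                _ = 1 / q := one_mul _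
            · exact mul_le_mul_of_nonneg_right h5 (by positivity)
            · positivity
            · positivity
        _ ≤ c * (1 / lam ^ (K - k) + 1 / q) * ((1 / 4) ^ j * (1 / 4) ^ l) := by
            apply mul_le_mul_of_nonneg_right _ (by positivity)
            rw [hc]
            apply mul_le_mul
            · apply mul_le_mul_of_nonneg_left _ (by positivity)
              have : (0 : ℝ) ≤ 8 * (Nat.factorial k : ℝ) * 4 ^ k := by positivity
              linarith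
            · have : (0 : ℝ) ≤ 1 / lam ^ (K - k) := by positivity
              linarith
            · positivity
            · positivity
  rw [← hKe]
  have hvol : volume.real {a : X k | a ∈ A ∧ lam * t ^ 2 ≤ VD q N a} ≤
      ∑ j ∈ range J1, ∑ l ∈ range J2, volume.real (B j l) := by
    refine (measureReal_mono hcov (measure_ne_top _ _)).trans ?_
    refine (measureReal_biUnion_finset_le _ _).trans ?_
    exact Finset.sum_le_sum fun j _ => measureReal_biUnion_finset_le _ _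
  have hgg : ∑ j ∈ range J1, ∑ l ∈ range J2, ((1 / 4 : ℝ) ^ j * (1 / 4) ^ l) ≤ 2 * 2 := by
    rw [← Finset.sum_mul_sum]
    exact mul_le_mul (geo4 J1) (geo4 J2) (Finset.sum_nonneg fun _ _ => by positivity)
      (by norm_num)
  calc ((q : ℝ) * N) ^ K * t ^ (2 * K) * volume.real {a : X k | a ∈ A ∧ lam * t ^ 2 ≤ VD q N a}
      ≤ ((q : ℝ) * N) ^ K * t ^ (2 * K) *
        ∑ j ∈ range J1, ∑ l ∈ range J2, volume.real (B j l) :=
        mul_le_mul_of_nonneg_left hvol (by positivity)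
    _ = ∑ j ∈ range J1, ∑ l ∈ range J2,
        ((q : ℝ) * N) ^ K * t ^ (2 * K) * volume.real (B j l) := by
        simp only [Finset.mul_sum]
    _ ≤ ∑ j ∈ range J1, ∑ l ∈ range J2,
        c * (1 / lam ^ (K - k) + 1 / q) * ((1 / 4) ^ j * (1 / 4) ^ l) :=
        Finset.sum_le_sum fun j _ => Finset.sum_le_sum fun l _ => hpiece j l
    _ = c * (1 / lam ^ (K - k) + 1 / q) *
        ∑ j ∈ range J1, ∑ l ∈ range J2, ((1 / 4 : ℝ) ^ j * (1 / 4) ^ l) := by
        simp only [Finset.mul_sum]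
    _ ≤ c * (1 / lam ^ (K - k) + 1 / q) * (2 * 2) :=
        mul_le_mul_of_nonneg_left hgg (by positivity)
    _ = 4 * c * (1 / lam ^ (K - k) + 1 / q) := by ring

end Pool.Agent.H59.ES
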