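import Pool.Agent.H59.ES.Lev

/-!
# Stars with positions: row RTN, most alive points have many alive cells
-/

set_option autoImplicit false

open Finset MeasureTheory

namespace Pool.Agent.H59.ES

open Pool.Agent.H24.CL Pool.Agent.H24.LV Pool.Agent.H26.ES Pool.Agent.H60.LVP

open Classical in
theorem pf_RTN (hTPU : T_TPU) (hTPM : T_TPM) (hWT : L_WT) : T_RTN := by
  intro k hk
  obtain ⟨C, hC, hW⟩ := hWT k hk
  obtain ⟨K, hKe⟩ : ∃ K, K = KN k := ⟨_, rfl⟩
  have hK6 : 6 ≤ K := by rw [hKe]; exact (KN_ge6 k hk).1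
  refine ⟨2 * (4 ^ (2 * K) * C * (4 + (4 * k) ^ 3)), ?_, ?_⟩
  · have h1 : (1 : ℝ) ≤ 4 ^ (2 * K) := one_le_pow₀ (by norm_num)
    have h2 : (0 : ℝ) ≤ (4 * k) ^ 3 := by positivity
    have h3 : 1 ≤ (4 : ℝ) ^ (2 * K) * C := by nlinarith
    nlinarith
  intro q N t m ν τ A hq hkq hN ht hm hmq hν hτ hτ8 hA hAt hc1 hc2
  have hq1 : 1 ≤ q := hq.one_lt.le
  have hq0 : (0 : ℝ) < q := by exact_mod_cast hq.pos
  have hk0 : (0 : ℝ) < k := by
    have : 0 < k := by omega
    exact_mod_cast this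
  obtain ⟨V, hV⟩ : ∃ V : Set (X k), V = {v : X k | t / 4 ≤ ‖u N v‖} := ⟨_, rfl⟩
  have hVm : MeasurableSet V := by
    rw [hV]
    exact measurableSet_le measurable_const (hum k N)
  obtain ⟨s, hs⟩ : ∃ s : ℝ, s = t / (4 * τ) := ⟨_, rfl⟩
  have hs0 : 0 < s := by rw [hs]; positivity
  have hts : t = 4 * τ * s := by rw [hs]; field_simp
  obtain ⟨J, hJ⟩ := pow_unbounded_of_one_lt (1 / s) (one_lt_two (α := ℝ))
  have hJs : 1 < 2 ^ J * s := by rwa [div_lt_iff₀ hs0] at hJ
  obtain ⟨A', hA'⟩ : ∃ A' : Set (X k), A' = {a : X k | a ∈ A ∧ hd q V a < τ} := ⟨_, rfl⟩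
  have hmA' : ∀ a, a ∈ A' ↔ a ∈ A ∧ hd q V a < τ := by
    intro a; rw [hA']; exact Iff.rfl
  have hA'm : MeasurableSet A' := by
    rw [hA']
    exact hA.inter (measurableSet_lt (meas_hd q hq1 hVm) measurable_const)
  obtain ⟨θ, hθ⟩ : ∃ θ : ℕ → ℝ, ∀ l, θ l = τ * (1 / 4) ^ l / 2 := ⟨_, fun _ => rfl⟩
  obtain ⟨B, hB⟩ : ∃ B : ℕ → Set (X k), ∀ l, B l =
      {a : X k | a ∈ A' ∧ θ l ≤ hd q (Ul k N (2 ^ l * s)) a} := ⟨_, fun _ => rfl⟩
  have hmB : ∀ l a, a ∈ B l ↔ a ∈ A' ∧ θ l ≤ hd q (Ul k N (2 ^ l * s)) a := by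
    intro l a; rw [hB]; exact Iff.rfl
  have hBm : ∀ l, MeasurableSet (B l) := by
    intro l
    rw [hB]
    exact hA'm.inter (measurableSet_le measurable_const (meas_hd q hq1 (mUl k N _)))
  -- covering
  have hcov : A' ⊆ ⋃ l ∈ range J, B l := by
    intro a ha
    obtain ⟨haA, had⟩ := (hmA' a).1 ha
    by_contra hno
    have hno' : ∀ l ∈ range J, hd q (Ul k N (2 ^ l * s)) a < θ l := by
      intro l hl
      by_contra h
      push Not at h
      exact hno (Set.mem_biUnion (by exact hl) ((hmB l a).2 ⟨ha, h⟩))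
    have h1 : t ≤ (1 / (q : ℝ)) * ∑ b ∈ range q, ‖u N (phi q b a)‖ := by
      refine (hAt a haA).trans ?_
      rw [hPF.2 k q N hq1 hN a, norm_mul]
      have h2 : ‖(1 / (q : ℂ))‖ = 1 / (q : ℝ) := by
        rw [norm_div, norm_one, Complex.norm_natCast]
      rw [h2]
      apply mul_le_mul_of_nonneg_left _ (by positivity)
      refine (norm_sum_le _ _).trans (le_of_eq ?_)
      refine Finset.sum_congr rfl fun b _ => ?_
      rw [norm_mul, hEX.1, one_mul]
    have h3 : ∀ b ∈ range q, ‖u N (phi q b a)‖ ≤ t / 4 +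
        s * (if phi q b a ∈ V then (1 : ℝ) else 0) +
        ∑ l ∈ range J, 2 * (2 ^ l * s) *
          (if phi q b a ∈ Ul k N (2 ^ l * s) then (1 : ℝ) else 0) := by
      intro b _
      have hnn : ∀ l ∈ range J, 0 ≤ 2 * (2 ^ l * s) *
          (if phi q b a ∈ Ul k N (2 ^ l * s) then (1 : ℝ) else 0) := by
        intro l _
        apply mul_nonneg (by positivity)
        split_ifs <;> norm_num
      have hS0 := Finset.sum_nonneg hnn
      by_cases h4 : phi q b a ∈ V
      · rw [if_pos h4]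
        by_cases h5 : s ≤ ‖u N (phi q b a)‖
        · obtain ⟨i, hi, hi1, hi2⟩ := dy h5 (hu1 k N _) hJs
          have h6 := Finset.single_le_sum hnn (Finset.mem_range.2 hi)
          rw [if_pos (show phi q b a ∈ Ul k N (2 ^ i * s) from hi1), mul_one] at h6
          linarith
        · push Not at h5
          linarith
      · rw [if_neg h4]
        have h5 : ‖u N (phi q b a)‖ < t / 4 := by
          rw [hV] at h4
          exact not_le.1 h4
        linarith
    have h4 := Finset.sum_le_sum h3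
    rw [Finset.sum_add_distrib, Finset.sum_add_distrib, Finset.sum_const, Finset.card_range,
      nsmul_eq_mul, ← Finset.mul_sum, Finset.sum_comm] at h4
    have h5 : ∀ U : Set (X k), ∑ b ∈ range q, (if phi q b a ∈ U then (1 : ℝ) else 0) =
        q * hd q U a := by
      intro U
      rw [hd_eq]
      field_simp
    have h6 : ∑ l ∈ range J, ∑ b ∈ range q, 2 * (2 ^ l * s) *
        (if phi q b a ∈ Ul k N (2 ^ l * s) then (1 : ℝ) else 0) =
        q * ∑ l ∈ range J, 2 * (2 ^ l * s) * hd q (Ul k N (2 ^ l * s)) a := by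
      rw [Finset.mul_sum]
      refine Finset.sum_congr rfl fun l _ => ?_
      rw [← Finset.mul_sum, h5]
      ring
    rw [h5, h6] at h4
    have h7 : ∑ l ∈ range J, 2 * (2 ^ l * s) * hd q (Ul k N (2 ^ l * s)) a < t / 2 := by
      have h8 : ∑ l ∈ range J, 2 * (2 ^ l * s) * hd q (Ul k N (2 ^ l * s)) a ≤
          ∑ l ∈ range J, s * τ * (1 / 2) ^ l := by
        refine Finset.sum_le_sum fun l hl => ?_
        have h9 := (hno' l hl).le
        rw [hθ] at h9
        calc 2 * (2 ^ l * s) * hd q (Ul k N (2 ^ l * s)) a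
            ≤ 2 * (2 ^ l * s) * (τ * (1 / 4) ^ l / 2) :=
              mul_le_mul_of_nonneg_left h9 (by positivity)
          _ = s * τ * (2 ^ l * (1 / 4) ^ l) := by ring
          _ = s * τ * (1 / 2) ^ l := by
              rw [← mul_pow]
              norm_num
      rw [← Finset.mul_sum] at h8
      have h10 := mul_lt_mul_of_pos_left (geo_lt J) (show (0 : ℝ) < s * τ by positivity)
      have h11 : s * τ * 2 = t / 2 := by rw [hts]; ring
      linarith
    have h12 : s * (q * hd q V a) < q * (t / 4) := by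
      calc s * (q * hd q V a) < s * (q * τ) :=
            mul_lt_mul_of_pos_left (mul_lt_mul_of_pos_left had hq0) hs0
        _ = q * (t / 4) := by rw [hts]; ring
    have h13 := mul_lt_mul_of_pos_left h7 hq0
    rw [one_div, inv_mul_eq_div, le_div_iff₀ hq0] at h1
    nlinarith
  -- the pieces
  have hpiece : ∀ l ∈ range J, ((q : ℝ) * N) ^ K * t ^ (2 * K) * volume.real (B l) ≤
      (4 ^ (2 * K) * C * (4 + (4 * k) ^ 3)) * (ν * τ ^ (2 * K - 1) + 1 / q) * (1 / 4) ^ l := by
    intro l _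
    have hθ0 : 0 < θ l := by rw [hθ]; positivity
    have hr0 : 0 < 2 ^ l * s := by positivity
    obtain ⟨ta, tb⟩ := transp hTPU hTPM hk hC hW hq hkq hN hm hν hθ0 hr0 (hBm l)
      (fun Y hY hd' => hc1 Y (fun y hy => ((hmA' y).1 ((hmB l y).1 (hY y hy)).1).1) hd')
      (fun Y hY hd' => hc2 Y (fun y hy => ((hmA' y).1 ((hmB l y).1 (hY y hy)).1).1) hd')
      (fun a ha => ((hmB l a).1 ha).2)
    rw [← hKe] at ta tb
    obtain ⟨v, hv⟩ : ∃ v, v = volume.real (B l) := ⟨_, rfl⟩
    rw [← hv] at ta tb ⊢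
    have hv0 : 0 ≤ v := by rw [hv]; exact measureReal_nonneg
    -- `t` in terms of the level
    have et : t ^ (2 * K) = (4 * τ) ^ (2 * K) * (1 / 4) ^ (l * K) * (2 ^ l * s) ^ (2 * K) := by
      have e1 : (1 / 4 : ℝ) ^ (l * K) * (2 ^ l * s) ^ (2 * K) = s ^ (2 * K) := by
        rw [mul_pow, ← pow_mul]
        have : l * (2 * K) = 2 * (l * K) := by ring
        rw [this, pow_mul (2 : ℝ) 2, ← mul_assoc, ← mul_pow]
        norm_num
      rw [mul_assoc, e1, ← mul_pow, ← hts]
    have el : ((q : ℝ) * N) ^ K * t ^ (2 * K) * v = (4 * τ) ^ (2 * K) * (1 / 4) ^ (l * K) *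
        (((q : ℝ) * N) ^ K * (2 ^ l * s) ^ (2 * K) * v) := by
      rw [et]; ring
    have h4l : (1 / 4 : ℝ) ^ l ≤ 1 := pow_le_one₀ (by norm_num) (by norm_num)
    have h4l0 : (0 : ℝ) < (1 / 4) ^ l := by positivity
    have hq4 : m ^ 4 ≤ q := by
      refine le_trans ?_ hmq
      exact pow_le_pow_right₀ hm (by norm_num)
    rcases le_total (2 * k * m) (θ l * q) with h | h
    · -- many cells
      have h1 := ta h
      have h2 : (1 / 4 : ℝ) ^ (l * K) ≤ (1 / 4) ^ l * (1 / 4) ^ l := by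
        rw [← pow_add]
        apply pow_le_pow_of_le_one (by norm_num) (by norm_num)
        nlinarith
      have e4 : (1 / 4 : ℝ) ^ l * 4 ^ l = 1 := by
        rw [← mul_pow]
        norm_num
      calc ((q : ℝ) * N) ^ K * t ^ (2 * K) * v
          = (4 * τ) ^ (2 * K) * (1 / 4) ^ (l * K) *
            (((q : ℝ) * N) ^ K * (2 ^ l * s) ^ (2 * K) * v) := el
        _ ≤ (4 * τ) ^ (2 * K) * (1 / 4) ^ (l * K) * (2 / θ l * ν * C) :=
            mul_le_mul_of_nonneg_left h1 (by positivity)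
        _ ≤ (4 * τ) ^ (2 * K) * ((1 / 4) ^ l * (1 / 4) ^ l) * (2 / θ l * ν * C) :=
            mul_le_mul_of_nonneg_right (mul_le_mul_of_nonneg_left h2 (by positivity))
              (by positivity)
        _ = 4 ^ (2 * K) * C * 4 * (ν * τ ^ (2 * K - 1)) * (1 / 4) ^ l := by
            have e5 : τ ^ (2 * K) = τ ^ (2 * K - 1) * τ := by
              rw [← pow_succ]; congr 1; omega
            rw [hθ, mul_pow, e5]
            field_simp
            ring
        _ ≤ (4 ^ (2 * K) * C * (4 + (4 * k) ^ 3)) * (ν * τ ^ (2 * K - 1) + 1 / q) *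
            (1 / 4) ^ l := by
            apply mul_le_mul_of_nonneg_right _ h4l0.le
            apply mul_le_mul
            · apply mul_le_mul_of_nonneg_left _ (by positivity)
              have : (0 : ℝ) ≤ (4 * k) ^ 3 := by positivity
              linarith
            · have : (0 : ℝ) ≤ 1 / q := by positivity
              linarith
            · positivity
            · positivity
    · -- few cells
      have h3 : (1 / 4 : ℝ) ^ l ≤ 4 * k * m / (τ * q) := by
        rw [hθ] at h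
        rw [le_div_iff₀ (by positivity)]
        linarith
      have h4 : (1 / 4 : ℝ) ^ (l * K) ≤ (4 * k * m / (τ * q)) ^ 3 * (1 / 4) ^ l := by
        calc (1 / 4 : ℝ) ^ (l * K) ≤ (1 / 4) ^ (l * 4) := by
              apply pow_le_pow_of_le_one (by norm_num) (by norm_num)
              exact Nat.mul_le_mul_left _ (by omega)
          _ = ((1 / 4) ^ l) ^ 3 * (1 / 4) ^ l := by rw [pow_mul]; ring
          _ ≤ _ := mul_le_mul_of_nonneg_right (pow_le_pow_left₀ h4l0.le h3 3) h4l0.le
      have h5 : τ ^ (2 * K - 3) ≤ 1 := pow_le_one₀ hτ.le (by linarith)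
      calc ((q : ℝ) * N) ^ K * t ^ (2 * K) * v
          = (4 * τ) ^ (2 * K) * (1 / 4) ^ (l * K) *
            (((q : ℝ) * N) ^ K * (2 ^ l * s) ^ (2 * K) * v) := el
        _ ≤ (4 * τ) ^ (2 * K) * (1 / 4) ^ (l * K) * (q * m * C) :=
            mul_le_mul_of_nonneg_left tb (by positivity)
        _ ≤ (4 * τ) ^ (2 * K) * ((4 * k * m / (τ * q)) ^ 3 * (1 / 4) ^ l) * (q * m * C) :=
            mul_le_mul_of_nonneg_right (mul_le_mul_of_nonneg_left h4 (by positivity))
              (by positivity)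
        _ = 4 ^ (2 * K) * C * (4 * k) ^ 3 * (τ ^ (2 * K - 3) * (m ^ 4 / q) * (1 / q)) *
            (1 / 4) ^ l := by
            have e5 : τ ^ (2 * K) = τ ^ (2 * K - 3) * τ ^ 3 := by
              rw [← pow_add]; congr 1; omega
            rw [mul_pow, e5]
            field_simp
        _ ≤ 4 ^ (2 * K) * C * (4 * k) ^ 3 * (1 / q) * (1 / 4) ^ l := by
            apply mul_le_mul_of_nonneg_right _ h4l0.le
            apply mul_le_mul_of_nonneg_left _ (by positivity)
            have h6 : m ^ 4 / q ≤ 1 := by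
              rw [div_le_one hq0]
              exact hq4
            have h7 : τ ^ (2 * K - 3) * (m ^ 4 / q) ≤ 1 :=
              mul_le_one₀ h5 (by positivity) h6
            calc τ ^ (2 * K - 3) * (m ^ 4 / q) * (1 / q) ≤ 1 * (1 / q) :=
                  mul_le_mul_of_nonneg_right h7 (by positivity)
              _ = 1 / q := one_mul _
        _ ≤ (4 ^ (2 * K) * C * (4 + (4 * k) ^ 3)) * (ν * τ ^ (2 * K - 1) + 1 / q) *
            (1 / 4) ^ l := by
            apply mul_le_mul_of_nonneg_right _ h4l0.le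
            apply mul_le_mul
            · apply mul_le_mul_of_nonneg_left _ (by positivity)
              linarith
            · have : (0 : ℝ) ≤ ν * τ ^ (2 * K - 1) := by positivity
              linarith
            · positivity
            · positivity
  rw [← hKe, ← hV, ← hA']
  have hvol : volume.real A' ≤ ∑ l ∈ range J, volume.real (B l) :=
    (measureReal_mono hcov (measure_ne_top _ _)).trans (measureReal_biUnion_finset_le _ _)
  calc ((q : ℝ) * N) ^ K * t ^ (2 * K) * volume.real A'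
      ≤ ((q : ℝ) * N) ^ K * t ^ (2 * K) * ∑ l ∈ range J, volume.real (B l) :=
        mul_le_mul_of_nonneg_left hvol (by positivity)
    _ = ∑ l ∈ range J, ((q : ℝ) * N) ^ K * t ^ (2 * K) * volume.real (B l) := by
        rw [Finset.mul_sum]
    _ ≤ ∑ l ∈ range J, (4 ^ (2 * K) * C * (4 + (4 * k) ^ 3)) * (ν * τ ^ (2 * K - 1) + 1 / q) *
        (1 / 4) ^ l := Finset.sum_le_sum hpiece
    _ = (4 ^ (2 * K) * C * (4 + (4 * k) ^ 3)) * (ν * τ ^ (2 * K - 1) + 1 / q) *
        ∑ l ∈ range J, (1 / 4 : ℝ) ^ l := by rw [Finset.mul_sum]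
    _ ≤ (4 ^ (2 * K) * C * (4 + (4 * k) ^ 3)) * (ν * τ ^ (2 * K - 1) + 1 / q) * 2 :=
        mul_le_mul_of_nonneg_left (geo4 J) (by positivity)
    _ = 2 * (4 ^ (2 * K) * C * (4 + (4 * k) ^ 3)) * (ν * τ ^ (2 * K - 1) + 1 / q) := by ring

end Pool.Agent.H59.ES
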